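import Mathlib.Data.Int.Star
import Mathlib.Algebra.Order.Ring.Star
import Mathlib.Analysis.Normed.Ring.Lemmas
import Mathlib.RingTheory.PowerSeries.Inverse
import Mathlib.NumberTheory.Padics.PadicVal.Basic
import Mathlib.RingTheory.PowerSeries.Expand

/-!
Congruences for the truncated products `1/(1-x) * ∏_{i<N} 1/(1-x^(4^i))^3`.
-/

set_option autoImplicit false

namespace Pool.Agent.MP_c5dce0_nt

open PowerSeries

/-- The series `1/(1-x^k)`. -/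
noncomputable def e (k : ℕ) : ℤ⟦X⟧ := invOfUnit (1 - X ^ k) 1

theorem mul_e {k : ℕ} (hk : k ≠ 0) : (1 - X ^ k) * e k = 1 := by
  apply mul_invOfUnit
  simp [hk]

theorem four_ne : (4 : ℕ) ≠ 0 := by norm_num

/-- Substitution of `x^4` for `x`. -/
noncomputable def E : ℤ⟦X⟧ →ₐ[ℤ] ℤ⟦X⟧ := expand 4 four_ne

theorem E_X : E X = X ^ 4 := expand_X 4 four_ne

theorem E_e {k : ℕ} (hk : k ≠ 0) : E (e k) = e (4 * k) := by
  have h1 : (1 - X ^ (4 * k)) * E (e k) = 1 := by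
    have := congrArg E (mul_e hk)
    rw [map_mul, map_sub, map_one, map_pow, E_X, ← pow_mul] at this
    exact this
  have h2 := mul_e (show 4 * k ≠ 0 by omega)
  calc E (e k) = ((1 - X ^ (4 * k)) * e (4 * k)) * E (e k) := by rw [h2, one_mul]
    _ = ((1 - X ^ (4 * k)) * E (e k)) * e (4 * k) := by ring
    _ = e (4 * k) := by rw [h1, one_mul]

/-- The truncated product. -/
noncomputable def T (N : ℕ) : ℤ⟦X⟧ := e 1 * ∏ i ∈ Finset.range N, e (4 ^ i) ^ 3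

theorem T_succ (N : ℕ) : T (N + 1) = (e 1 ^ 4 * (1 - X ^ 4)) * E (T N) := by
  have h4 := mul_e (show (4 : ℕ) ≠ 0 by norm_num)
  have h1 : E (T N) = e 4 * ∏ i ∈ Finset.range N, e (4 ^ (i + 1)) ^ 3 := by
    rw [T, map_mul, E_e one_ne_zero, map_prod]
    congr 1
    apply Finset.prod_congr rfl
    intro i _
    rw [map_pow, E_e (by positivity), pow_succ' 4 i]
  rw [h1, T, Finset.prod_range_succ', pow_zero]
  calc e 1 * ((∏ i ∈ Finset.range N, e (4 ^ (i + 1)) ^ 3) * e 1 ^ 3)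
      = e 1 ^ 4 * ((1 - X ^ 4) * e 4) * ∏ i ∈ Finset.range N, e (4 ^ (i + 1)) ^ 3 := by
        rw [h4]; ring
    _ = _ := by ring

/-- The coefficients of `2x/(1-x^2) + x^2/(1+x^4)`. -/
def uc (n : ℕ) : ℤ := if n % 2 = 1 then 2 else if n % 8 = 2 then 1 else if n % 8 = 6 then -1 else 0

/-- The series `2x/(1-x^2) + x^2/(1+x^4)`. -/
noncomputable def u : ℤ⟦X⟧ := mk uc

theorem u_eq : (1 - X ^ 8) * u = 2 * X + X ^ 2 + 2 * X ^ 3 + 2 * X ^ 5 - X ^ 6 + 2 * X ^ 7 := by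
  ext n
  have h2 : (2 : ℤ⟦X⟧) = C (2 : ℤ) := rfl
  rw [sub_mul, one_mul, map_sub, coeff_X_pow_mul', h2]
  simp only [map_add, map_sub, coeff_C_mul, coeff_X_pow, coeff_X, u, coeff_mk, uc]
  split_ifs <;> omega

theorem g_four : ∃ r : ℤ⟦X⟧, (e 1 ^ 4 * (1 - X ^ 4)) ^ 4 = 1 + 8 * u + 32 * r := by
  have h1 := mul_e one_ne_zero
  have h8 := mul_e (show (8 : ℕ) ≠ 0 by norm_num)
  rw [pow_one] at h1
  have hu : u = (2 * X + X ^ 2 + 2 * X ^ 3 + 2 * X ^ 5 - X ^ 6 + 2 * X ^ 7) * e 8 := by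
    rw [← u_eq]
    calc u = u * ((1 - X ^ 8) * e 8) := by rw [h8, mul_one]
      _ = _ := by ring
  let D : ℤ⟦X⟧ := 4 * X ^ 2 - 39 * X ^ 3 + 197 * X ^ 4 - 655 * X ^ 5 + 1570 * X ^ 6
    - 2874 * X ^ 7 + 4248 * X ^ 8 - 5458 * X ^ 9 + 6647 * X ^ 10 - 8008 * X ^ 11 + 9161 * X ^ 12
    - 9232 * X ^ 13 + 7752 * X ^ 14 - 5254 * X ^ 15 + 2814 * X ^ 16 - 1166 * X ^ 17
    + 363 * X ^ 18 - 81 * X ^ 19 + 12 * X ^ 20 - X ^ 21
  have key : (1 - X ^ 4) ^ 4 * (1 - X ^ 8) = (1 - X) ^ 16 * ((1 - X ^ 8)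
      + 8 * (2 * X + X ^ 2 + 2 * X ^ 3 + 2 * X ^ 5 - X ^ 6 + 2 * X ^ 7))
      + 32 * (D * (1 + X ^ 2)) := by
    simp only [D]
    ring
  refine ⟨D * (1 + X ^ 2) * e 1 ^ 16 * e 8, ?_⟩
  have h16 : (1 - X) ^ 16 * e 1 ^ 16 = 1 := by rw [← mul_pow, h1, one_pow]
  calc (e 1 ^ 4 * (1 - X ^ 4)) ^ 4
      = e 1 ^ 16 * (1 - X ^ 4) ^ 4 * ((1 - X ^ 8) * e 8) := by rw [h8]; ring
    _ = e 1 ^ 16 * e 8 * ((1 - X ^ 4) ^ 4 * (1 - X ^ 8)) := by ring
    _ = ((1 - X) ^ 16 * e 1 ^ 16) * ((1 - X ^ 8) * e 8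
          + 8 * ((2 * X + X ^ 2 + 2 * X ^ 3 + 2 * X ^ 5 - X ^ 6 + 2 * X ^ 7) * e 8))
          + 32 * (D * (1 + X ^ 2) * e 1 ^ 16 * e 8) := by rw [key]; ring
    _ = _ := by rw [h16, h8, ← hu, one_mul]

/-- The sum of `u (x^(4^i))` over `i < N`. -/
noncomputable def U : ℕ → ℤ⟦X⟧
  | 0 => 0
  | N + 1 => u + E (U N)

theorem T_four (N : ℕ) : ∃ r q : ℤ⟦X⟧, T N ^ 4 = 1 + 8 * U N + 32 * r + X ^ (4 ^ N) * q := by
  induction N with
  | zero =>
    have h1 := mul_e one_ne_zero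
    rw [pow_one] at h1
    have h2 : e 1 = 1 + X * e 1 := by linear_combination h1
    refine ⟨0, e 1 * (1 + e 1 + e 1 ^ 2 + e 1 ^ 3), ?_⟩
    simp only [T, U, Finset.range_zero, Finset.prod_empty, mul_one, pow_zero, pow_one]
    linear_combination (1 + e 1 + e 1 ^ 2 + e 1 ^ 3) * h1
  | succ N ih =>
    obtain ⟨r, q, h⟩ := ih
    obtain ⟨r0, h0⟩ := g_four
    have h1 : E (T N) ^ 4 = 1 + 8 * E (U N) + 32 * E r + X ^ (4 ^ (N + 1)) * E q := by
      have := congrArg E h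
      simp only [map_add, map_mul, map_pow, map_one, map_ofNat, E_X] at this
      rw [this, ← pow_mul, pow_succ' 4 N]
    rw [T_succ, mul_pow, h0, h1]
    refine ⟨r0 + E r + 2 * (u + 4 * r0) * (E (U N) + 4 * E r),
      (1 + 8 * u + 32 * r0) * E q, ?_⟩
    simp only [U]
    ring

theorem T_pow (N j : ℕ) : ∃ r q : ℤ⟦X⟧,
    T N ^ (2 ^ (j + 2)) = 1 + 2 ^ (j + 3) * U N + 2 ^ (j + 5) * r + X ^ (4 ^ N) * q := by
  induction j with
  | zero =>
    obtain ⟨r, q, h⟩ := T_four N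
    exact ⟨r, q, by rw [show 2 ^ (0 + 2) = 4 by norm_num, h]; norm_num⟩
  | succ j ih =>
    obtain ⟨r, q, h⟩ := ih
    rw [show 2 ^ (j + 1 + 2) = 2 ^ (j + 2) * 2 by ring, pow_mul, h]
    refine ⟨r + 2 ^ j * (U N + 4 * r) ^ 2,
      q * (2 * (1 + 2 ^ (j + 3) * U N + 2 ^ (j + 5) * r) + X ^ (4 ^ N) * q), ?_⟩
    ring

theorem val_four_mul {m : ℕ} (hm : m ≠ 0) : padicValNat 2 (4 * m) = padicValNat 2 m + 2 := by
  have : Fact (Nat.Prime 2) := ⟨Nat.prime_two⟩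
  rw [padicValNat.mul (by norm_num) hm, show (4 : ℕ) = 2 ^ 2 by norm_num, padicValNat.prime_pow]
  ring

theorem val_odd {m : ℕ} (hm : m % 2 = 1) : padicValNat 2 m = 0 :=
  padicValNat.eq_zero_of_not_dvd (by omega)

theorem val_two_mul {m : ℕ} (hm : m ≠ 0) : padicValNat 2 (2 * m) = padicValNat 2 m + 1 := by
  have : Fact (Nat.Prime 2) := ⟨Nat.prime_two⟩
  rw [padicValNat.mul (by norm_num) hm, padicValNat_self]
  ring

theorem U_coeff (N : ℕ) : ∀ n, 0 < n → n < 4 ^ N →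
    (padicValNat 2 n % 2 = 0 ∧ coeff n (U N) = 2) ∨
      (padicValNat 2 n % 2 = 1 ∧ coeff n (U N) % 2 = 1) := by
  induction N with
  | zero => intro n h1 h2; omega
  | succ N ih =>
    intro n h1 h2
    have hc : coeff n (U (N + 1)) = uc n + if 4 ∣ n then coeff (n / 4) (U N) else 0 := by
      simp only [U, map_add, E, coeff_expand, u, coeff_mk]
    rw [hc]
    by_cases h4 : 4 ∣ n
    · obtain ⟨m, rfl⟩ := h4
      have hm : m ≠ 0 := by omega
      have huc : uc (4 * m) = 0 := by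
        simp only [uc]
        split_ifs <;> omega
      rw [huc, if_pos (dvd_mul_right 4 m), Nat.mul_div_cancel_left m (by norm_num), zero_add,
        val_four_mul hm]
      rw [pow_succ] at h2
      rcases ih m (by omega) (by omega) with h | h
      · exact Or.inl ⟨by omega, h.2⟩
      · exact Or.inr ⟨by omega, h.2⟩
    · rw [if_neg h4, add_zero]
      by_cases h2' : n % 2 = 1
      · left
        rw [val_odd h2']
        simp [uc, h2']
      · right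
        obtain ⟨m, rfl⟩ : ∃ m, n = 2 * m := ⟨n / 2, by omega⟩
        rw [val_two_mul (by omega), val_odd (by omega)]
        refine ⟨by norm_num, ?_⟩
        simp only [uc]
        split_ifs <;> omega

theorem val_int (a : ℕ) (c : ℤ) (hc : c % 2 = 1) : padicValInt 2 (2 ^ a * c) = a := by
  have : Fact (Nat.Prime 2) := ⟨Nat.prime_two⟩
  have hc0 : c ≠ 0 := by omega
  rw [padicValInt.mul (by positivity) hc0]
  have h1 : padicValInt 2 c = 0 := padicValInt.eq_zero_of_not_dvd (by omega)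
  have h2 : padicValInt 2 (2 ^ a) = a := by
    simp [padicValInt, Int.natAbs_pow]
  rw [h1, h2, add_zero]

theorem T_val (N s n : ℕ) (hs : 2 ≤ s) (hn : 1 ≤ n) (hN : n < 4 ^ N) :
    coeff n (T N ^ (2 ^ s)) ≠ 0 ∧
      padicValInt 2 (coeff n (T N ^ (2 ^ s))) = s + 1 + padicValNat 2 (2 * n) % 2 := by
  obtain ⟨j, rfl⟩ : ∃ j, s = j + 2 := ⟨s - 2, by omega⟩
  obtain ⟨r, q, h⟩ := T_pow N j
  have hc : coeff n (T N ^ (2 ^ (j + 2))) =
      2 ^ (j + 3) * coeff n (U N) + 2 ^ (j + 5) * coeff n r := by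
    have e1 : ∀ a : ℕ, (2 : ℤ⟦X⟧) ^ a = C ((2 : ℤ) ^ a) := fun a => by
      rw [map_pow]; rfl
    rw [h, e1, e1]
    simp only [map_add, coeff_C_mul, coeff_X_pow_mul', coeff_one]
    rw [if_neg (by omega), if_neg (by omega)]
    ring
  rw [hc, val_two_mul (by omega)]
  rcases U_coeff N n (by omega) hN with ⟨h1, h2⟩ | ⟨h1, h2⟩
  · have e2 : 2 ^ (j + 3) * coeff n (U N) + 2 ^ (j + 5) * coeff n r =
        2 ^ (j + 4) * (1 + 2 * coeff n r) := by rw [h2]; ring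
    rw [e2, val_int _ _ (by omega)]
    refine ⟨mul_ne_zero (by positivity) (by omega), by omega⟩
  · have e2 : 2 ^ (j + 3) * coeff n (U N) + 2 ^ (j + 5) * coeff n r =
        2 ^ (j + 3) * (coeff n (U N) + 4 * coeff n r) := by ring
    rw [e2, val_int _ _ (by omega)]
    refine ⟨mul_ne_zero (by positivity) (by omega), by omega⟩

end Pool.Agent.MP_c5dce0_nt
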